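import Mathlib

/-!
# A matrix of rank at most five agrees with a Cauchy block in few entries
-/

set_option autoImplicit false

namespace Pool.Agent.X246.LRA

open Finset Polynomial

/-- A hyperplane contains few columns of a Cauchy matrix. -/
theorem card_cauchy {R C : ℕ} (S : Finset (Fin R)) (w : Fin R → ℝ) (hw : ∃ r ∈ S, w r ≠ 0) :
    (univ.filter fun c : Fin C =>
      ∑ r ∈ S, w r * (1 / (((r : ℕ) : ℝ) + ((c : ℕ) : ℝ) + 1)) = 0).card ≤ S.card := by
  classical
  obtain ⟨r₀, hr₀, hw₀⟩ := hw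
  let p : ℝ[X] := ∑ r ∈ S, Polynomial.C (w r) *
    ∏ s ∈ S.erase r, (X + Polynomial.C (((s : ℕ) : ℝ) + 1))
  have hp : p ≠ 0 := by
    intro h0
    have h1 : p.eval (-(((r₀ : ℕ) : ℝ) + 1)) = 0 := by rw [h0, eval_zero]
    simp only [p, eval_finset_sum, eval_mul, eval_C, eval_prod, eval_add, eval_X] at h1
    rw [Finset.sum_eq_single r₀] at h1
    · rcases mul_eq_zero.1 h1 with h2 | h2
      · exact hw₀ h2
      · rw [Finset.prod_eq_zero_iff] at h2
        obtain ⟨s, hs, h3⟩ := h2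
        rw [Finset.mem_erase] at hs
        apply hs.1
        apply Fin.ext
        have : ((s : ℕ) : ℝ) = ((r₀ : ℕ) : ℝ) := by linarith
        exact_mod_cast this
    · intro r _ hr
      rw [Finset.prod_eq_zero (i := r₀) (Finset.mem_erase.2 ⟨fun e => hr e.symm, hr₀⟩)
        (by ring), mul_zero]
    · intro hn
      exact absurd hr₀ hn
  have hdeg : p.natDegree ≤ S.card := by
    apply Polynomial.natDegree_sum_le_of_forall_le
    intro r _
    refine (natDegree_C_mul_le _ _).trans ((natDegree_prod_le _ _).trans ?_)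
    refine (Finset.sum_le_card_nsmul _ _ 1 fun s _ => ?_).trans ?_
    · exact (natDegree_X_add_C _).le
    · rw [smul_eq_mul, mul_one]
      exact Finset.card_le_card (Finset.erase_subset _ _)
  have hroot : ∀ c : Fin C, ∑ r ∈ S, w r * (1 / (((r : ℕ) : ℝ) + ((c : ℕ) : ℝ) + 1)) = 0 →
      p.eval ((c : ℕ) : ℝ) = 0 := by
    intro c hc
    have h1 : p.eval ((c : ℕ) : ℝ) = (∏ s ∈ S, (((c : ℕ) : ℝ) + (((s : ℕ) : ℝ) + 1))) *
        ∑ r ∈ S, w r * (1 / (((r : ℕ) : ℝ) + ((c : ℕ) : ℝ) + 1)) := by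
      simp only [p, eval_finset_sum, eval_mul, eval_C, eval_prod, eval_add, eval_X]
      rw [Finset.mul_sum]
      refine Finset.sum_congr rfl fun r hr => ?_
      rw [← Finset.mul_prod_erase S _ hr]
      have : ((c : ℕ) : ℝ) + (((r : ℕ) : ℝ) + 1) ≠ 0 := by positivity
      have h2 : ((r : ℕ) : ℝ) + ((c : ℕ) : ℝ) + 1 = ((c : ℕ) : ℝ) + (((r : ℕ) : ℝ) + 1) := by ring
      rw [h2]
      field_simp
    rw [h1, hc, mul_zero]
  have h2 : ((univ.filter fun c : Fin C =>
      ∑ r ∈ S, w r * (1 / (((r : ℕ) : ℝ) + ((c : ℕ) : ℝ) + 1)) = 0).image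
        fun c : Fin C => ((c : ℕ) : ℝ)) ⊆ p.roots.toFinset := by
    intro y hy
    rw [Finset.mem_image] at hy
    obtain ⟨c, hc, rfl⟩ := hy
    rw [Finset.mem_filter] at hc
    rw [Multiset.mem_toFinset, Polynomial.mem_roots hp]
    exact hroot c hc.2
  have hinj : Function.Injective (fun c : Fin C => ((c : ℕ) : ℝ)) := by
    intro c c' h
    have h' : ((c : ℕ) : ℝ) = ((c' : ℕ) : ℝ) := h
    apply Fin.ext
    exact_mod_cast h'
  rw [← Finset.card_image_of_injective _ hinj]
  calc _ ≤ p.roots.toFinset.card := Finset.card_le_card h2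
    _ ≤ Multiset.card p.roots := Multiset.toFinset_card_le _
    _ ≤ p.natDegree := Polynomial.card_roots' p
    _ ≤ S.card := hdeg

theorem exists_rel {R k : ℕ} (t : Finset (Fin R)) (ht : k < t.card) (P : Fin R → Fin k → ℝ) :
    ∃ w : Fin R → ℝ, (∃ r ∈ t, w r ≠ 0) ∧ ∀ e, ∑ r ∈ t, w r * P r e = 0 := by
  classical
  have h : ¬ LinearIndependent ℝ (fun r : t => P r) := fun h => by
    have := h.fintype_card_le_finrank
    rw [Fintype.card_coe, Module.finrank_fintype_fun_eq_card, Fintype.card_fin] at this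
    omega
  rw [Fintype.not_linearIndependent_iff] at h
  obtain ⟨g, hg, i, hi⟩ := h
  refine ⟨fun r => if h : r ∈ t then g ⟨r, h⟩ else 0, ⟨i, i.2, by simpa using hi⟩, fun e => ?_⟩
  have h1 := congrFun hg e
  rw [Finset.sum_apply] at h1
  rw [← Finset.sum_coe_sort t]
  simpa using h1

/-- The number of agreements with a Cauchy block. -/
theorem agree {R C k : ℕ} (hk : k ≤ 5) (P : Fin R → Fin k → ℝ) (Q : Fin C → Fin k → ℝ) :
    ∑ c : Fin C, (univ.filter fun r : Fin R =>
      1 / (((r : ℕ) : ℝ) + ((c : ℕ) : ℝ) + 1) = ∑ e, P r e * Q c e).card ≤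
      5 * C + 6 * R ^ 7 := by
  classical
  let S : Fin C → Finset (Fin R) := fun c => univ.filter fun r : Fin R =>
      1 / (((r : ℕ) : ℝ) + ((c : ℕ) : ℝ) + 1) = ∑ e, P r e * Q c e
  let G : Finset (Fin C) := univ.filter fun c => 6 ≤ (S c).card
  have hT : ∀ c ∈ G, ∃ t ⊆ S c, t.card = 6 := fun c hc =>
    Finset.exists_subset_card_eq (Finset.mem_filter.1 hc).2
  choose! T hT1 hT2 using hT
  have hfib : ∀ t ∈ G.image T, (G.filter fun c => T c = t).card ≤ 6 := by
    intro t ht
    rw [Finset.mem_image] at ht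
    obtain ⟨c₀, hc₀, rfl⟩ := ht
    obtain ⟨w, hw, hw2⟩ := exists_rel (T c₀) (by rw [hT2 c₀ hc₀]; omega) P
    have h1 := card_cauchy (C := C) (T c₀) w hw
    rw [hT2 c₀ hc₀] at h1
    refine (Finset.card_le_card ?_).trans h1
    intro c hc
    rw [Finset.mem_filter] at hc ⊢
    refine ⟨Finset.mem_univ _, ?_⟩
    have h2 : ∀ r ∈ T c₀, 1 / (((r : ℕ) : ℝ) + ((c : ℕ) : ℝ) + 1) = ∑ e, P r e * Q c e := by
      intro r hr
      rw [← hc.2] at hr
      exact (Finset.mem_filter.1 (hT1 c hc.1 hr)).2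
    calc ∑ r ∈ T c₀, w r * (1 / (((r : ℕ) : ℝ) + ((c : ℕ) : ℝ) + 1))
        = ∑ r ∈ T c₀, ∑ e, Q c e * (w r * P r e) := by
          refine Finset.sum_congr rfl fun r hr => ?_
          rw [h2 r hr, Finset.mul_sum]
          refine Finset.sum_congr rfl fun e _ => ?_
          ring
      _ = ∑ e, Q c e * ∑ r ∈ T c₀, w r * P r e := by
          rw [Finset.sum_comm]
          refine Finset.sum_congr rfl fun e _ => ?_
          rw [Finset.mul_sum]
      _ = 0 := Finset.sum_eq_zero fun e _ => by rw [hw2 e, mul_zero]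
  have hG : G.card ≤ 6 * R ^ 6 := by
    refine (Finset.card_le_mul_card_image G 6 hfib).trans (Nat.mul_le_mul_left 6 ?_)
    have h1 : G.image T ⊆ Finset.powersetCard 6 univ := by
      intro t ht
      rw [Finset.mem_image] at ht
      obtain ⟨c, hc, rfl⟩ := ht
      exact Finset.mem_powersetCard.2 ⟨Finset.subset_univ _, hT2 c hc⟩
    refine (Finset.card_le_card h1).trans ?_
    rw [Finset.card_powersetCard, Finset.card_univ, Fintype.card_fin]
    exact Nat.choose_le_pow _ _
  have hterm : ∀ c, (S c).card ≤ 5 + if c ∈ G then R else 0 := by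
    intro c
    by_cases hc : c ∈ G
    · rw [if_pos hc]
      have : (S c).card ≤ R := by
        have := Finset.card_le_univ (S c)
        rwa [Fintype.card_fin] at this
      omega
    · rw [if_neg hc]
      have : ¬ 6 ≤ (S c).card := fun h => hc (Finset.mem_filter.2 ⟨Finset.mem_univ _, h⟩)
      omega
  calc ∑ c : Fin C, (S c).card ≤ ∑ c : Fin C, (5 + if c ∈ G then R else 0) :=
        Finset.sum_le_sum fun c _ => hterm c
    _ = 5 * C + G.card * R := by
        rw [Finset.sum_add_distrib, Finset.sum_ite_mem, Finset.univ_inter]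
        simp [mul_comm]
    _ ≤ 5 * C + 6 * R ^ 6 * R := by
        have := Nat.mul_le_mul_right R hG
        omega
    _ = 5 * C + 6 * R ^ 7 := by ring

end Pool.Agent.X246.LRA
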