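import Pool.Agent.X246.HDM.Main
import Pool.Agent.X246.LRA.Block

/-!
# Entrywise low-rank approximation in the `ℓ⁰` distance: correctness of the reduction
-/

set_option autoImplicit false

namespace Pool.Agent.X246.LRA

open Pool.Agent.NPC Finset Pool.Agent.X246.CMI Pool.Agent.X246.HDM

/-- The number of entries in which the matrix with table `A` differs from `B`. -/
noncomputable def diffCount {m n : ℕ} (A : List (List ℚ)) (B : Matrix (Fin m) (Fin n) ℝ) : ℕ :=
  (univ.filter fun p : Fin m × Fin n =>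
    (((A.getD p.1 []).getD p.2 0 : ℚ) : ℝ) ≠ B p.1 p.2).card

/-- The problem `LRA₀`: given (the table of) a rational matrix, `k` and a rational `ε > 0`, is
there a real matrix of rank at most `k` that differs from it in fewer than `ε` entries? -/
def LRA0 (I : List (List ℚ) × ℕ × ℚ) : Prop :=
  0 < I.2.2 ∧ ∃ m n, IsTable m n I.1 ∧ ∃ B : Matrix (Fin m) (Fin n) ℝ, B.rank ≤ I.2.1 ∧
    (diffCount I.1 B : ℚ) < I.2.2

/-- Number of copies of the rows. -/
def RR (L : List D) : ℕ := 11 * rr L + 1

/-- Number of copies of the columns. -/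
def CC (L : List D) : ℕ := RR L * RR L * RR L * RR L * RR L * RR L * RR L

theorem CC_eq (L : List D) : CC L = RR L ^ 7 := by unfold CC; ring

/-- The entries of the matrix. -/
def en (L : List D) (ρ γ : ℕ) : ℚ :=
  if Act L (ρ / RR L) (γ / CC L) then (if ρ / RR L = γ / CC L then 1 else 0)
  else 1 / (((ρ % RR L + γ % CC L : ℕ) : ℚ) + 1)

/-- The matrix. -/
def table (L : List D) : List (List ℚ) :=
  (List.range (nn L * RR L)).map fun ρ => (List.range (nn L * CC L)).map fun γ => en L ρ γ

/-- The number of free blocks. -/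
def fc (L : List D) : ℕ :=
  ((List.range (nn L)).flatMap fun i =>
    (List.range (nn L)).filter fun j => !decide (Act L i j)).length

/-- The reduction. -/
def red (S : List ER.Con) : List (List ℚ) × ℕ × ℚ :=
  (table (descs S), 5,
    ((fc (descs S) * (RR (descs S) * CC (descs S)) + 1 : ℕ) : ℚ))

theorem length_filter_range (p : ℕ → Bool) (n : ℕ) :
    ((List.range n).filter p).length = ∑ j ∈ range n, if p j = true then 1 else 0 := by
  induction n with
  | zero => simp
  | succ n ih =>
      rw [List.range_succ, List.filter_append, List.length_append, ih, Finset.sum_range_succ]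
      congr 1
      by_cases h : p n = true <;> simp [h]

theorem length_flatMap_range {β : Type} (f : ℕ → List β) (n : ℕ) :
    ((List.range n).flatMap f).length = ∑ i ∈ range n, (f i).length := by
  induction n with
  | zero => simp
  | succ n ih =>
      rw [List.range_succ, List.flatMap_append, List.length_append, ih, Finset.sum_range_succ]
      simp

theorem fc_eq (L : List D) :
    fc L = ∑ q : Fin (nn L) × Fin (nn L), if Act L q.1 q.2 then 0 else 1 := by
  unfold fc
  rw [length_flatMap_range, Fintype.sum_prod_type,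
    ← Fin.sum_univ_eq_sum_range (fun i => ((List.range (nn L)).filter
      fun j => !decide (Act L i j)).length)]
  refine Finset.sum_congr rfl fun i _ => ?_
  rw [length_filter_range, ← Fin.sum_univ_eq_sum_range
    (fun j => if (!decide (Act L i j)) = true then 1 else 0)]
  refine Finset.sum_congr rfl fun j _ => ?_
  by_cases h : Act L i j <;> simp [h]

theorem fc_le (L : List D) : fc L ≤ rr L := by
  rw [fc_eq]
  refine (Finset.sum_le_card_nsmul _ _ 1 fun q _ => by split_ifs <;> omega).trans ?_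
  rw [Finset.card_univ, Fintype.card_prod, Fintype.card_fin, smul_eq_mul, mul_one]
  exact le_refl _

theorem sum_blocks {n R C : ℕ} (F : Fin (n * R) → Fin (n * C) → ℕ) :
    ∑ p : Fin (n * R) × Fin (n * C), F p.1 p.2 = ∑ q : Fin n × Fin n, ∑ s : Fin R × Fin C,
      F (finProdFinEquiv (q.1, s.1)) (finProdFinEquiv (q.2, s.2)) := by
  rw [Fintype.sum_prod_type, ← finProdFinEquiv.sum_comp, Fintype.sum_prod_type,
    Fintype.sum_prod_type]
  refine Finset.sum_congr rfl fun i _ => ?_
  have h1 : ∀ r : Fin R, ∑ γ : Fin (n * C), F (finProdFinEquiv (i, r)) γ =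
      ∑ j : Fin n, ∑ c : Fin C, F (finProdFinEquiv (i, r)) (finProdFinEquiv (j, c)) := by
    intro r
    rw [← finProdFinEquiv.sum_comp, Fintype.sum_prod_type]
  simp only [h1]
  rw [Finset.sum_comm]
  refine Finset.sum_congr rfl fun j _ => ?_
  rw [Fintype.sum_prod_type]

theorem idx_div {n R : ℕ} (i : Fin n) (r : Fin R) :
    ((finProdFinEquiv (i, r) : Fin (n * R)) : ℕ) / R = i := by
  have hR : 0 < R := by have := r.2; omega
  rw [finProdFinEquiv_apply_val]
  simp only
  rw [Nat.add_mul_div_left _ _ hR, Nat.div_eq_of_lt r.2, zero_add]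

theorem idx_mod {n R : ℕ} (i : Fin n) (r : Fin R) :
    ((finProdFinEquiv (i, r) : Fin (n * R)) : ℕ) % R = r := by
  rw [finProdFinEquiv_apply_val]
  simp only
  rw [Nat.add_mul_mod_self_left, Nat.mod_eq_of_lt r.2]

/-- The entries in a block. -/
theorem en_block (L : List D) (q : Fin (nn L) × Fin (nn L)) (s : Fin (RR L) × Fin (CC L)) :
    en L (finProdFinEquiv (q.1, s.1) : Fin (nn L * RR L))
      (finProdFinEquiv (q.2, s.2) : Fin (nn L * CC L)) =
      if Act L q.1 q.2 then (if (q.1 : ℕ) = q.2 then 1 else 0)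
        else 1 / (((s.1 + s.2 : ℕ) : ℚ) + 1) := by
  unfold en
  rw [idx_div, idx_div, idx_mod, idx_mod]

/-- Soundness. -/
theorem core (L : List D) (B : Matrix (Fin (nn L * RR L)) (Fin (nn L * CC L)) ℝ)
    (hB : B.rank ≤ 5)
    (hc : ∑ p : Fin (nn L * RR L) × Fin (nn L * CC L),
      (if ((en L p.1 p.2 : ℚ) : ℝ) ≠ B p.1 p.2 then 1 else 0) ≤ fc L * (RR L * CC L)) :
    ∃ a b : ℕ → ℕ → ℝ, IS L a b := by
  classical
  obtain ⟨k, hk⟩ : ∃ k, B.rank = k := ⟨_, rfl⟩
  have hk5 : k ≤ 5 := by omega
  obtain ⟨P, Q, hPQ⟩ := rank_factor B hk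
  let br : Fin (nn L) → Fin (RR L) → Fin (nn L * RR L) := fun i r => finProdFinEquiv (i, r)
  let bc : Fin (nn L) → Fin (CC L) → Fin (nn L * CC L) := fun i r => finProdFinEquiv (i, r)
  let ch : Fin (nn L) × Fin (nn L) → Fin (RR L) × Fin (CC L) → ℕ := fun q s =>
    if ((en L (br q.1 s.1) (bc q.2 s.2) : ℚ) : ℝ) ≠ B (br q.1 s.1) (bc q.2 s.2) then 1 else 0
  have hc' : ∑ q, ∑ s, ch q s ≤ fc L * (RR L * CC L) := by
    refine le_trans (le_of_eq ?_) hc
    exact (sum_blocks (fun ρ γ => if ((en L ρ γ : ℚ) : ℝ) ≠ B ρ γ then 1 else 0)).symm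
  have hfree : ∀ q : Fin (nn L) × Fin (nn L), ¬ Act L q.1 q.2 →
      RR L * CC L ≤ ∑ s, ch q s + (5 * CC L + 6 * RR L ^ 7) := by
    intro q hq
    have h1 : ∑ s, ch q s + ∑ s : Fin (RR L) × Fin (CC L),
        (if ((en L (br q.1 s.1) (bc q.2 s.2) : ℚ) : ℝ) = B (br q.1 s.1) (bc q.2 s.2)
          then 1 else 0) = RR L * CC L := by
      rw [← Finset.sum_add_distrib]
      have h2 : ∀ s ∈ (univ : Finset (Fin (RR L) × Fin (CC L))), ch q s +
          (if ((en L (br q.1 s.1) (bc q.2 s.2) : ℚ) : ℝ) = B (br q.1 s.1) (bc q.2 s.2)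
          then 1 else 0) = 1 := by
        intro s _
        simp only [ch]
        by_cases h : ((en L (br q.1 s.1) (bc q.2 s.2) : ℚ) : ℝ) = B (br q.1 s.1) (bc q.2 s.2) <;>
          simp [h]
      rw [Finset.sum_congr rfl h2]
      simp
    have h3 : ∑ s : Fin (RR L) × Fin (CC L),
        (if ((en L (br q.1 s.1) (bc q.2 s.2) : ℚ) : ℝ) = B (br q.1 s.1) (bc q.2 s.2)
          then 1 else 0) ≤ 5 * CC L + 6 * RR L ^ 7 := by
      refine le_trans (le_of_eq ?_) (agree hk5 (fun r => P (br q.1 r)) (fun c => Q (bc q.2 c)))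
      rw [Fintype.sum_prod_type_right]
      refine Finset.sum_congr rfl fun c _ => ?_
      rw [Finset.card_filter]
      refine Finset.sum_congr rfl fun r _ => ?_
      have h4 : ((en L (br q.1 r) (bc q.2 c) : ℚ) : ℝ) =
          1 / (((r : ℕ) : ℝ) + ((c : ℕ) : ℝ) + 1) := by
        have := en_block L q (r, c)
        rw [if_neg hq] at this
        rw [this]
        push_cast
        rfl
      simp only [h4, hPQ]
    omega
  have hR : RR L = 11 * rr L + 1 := rfl
  have hRpos : 0 < RR L := by omega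
  have hC : CC L = RR L ^ 7 := CC_eq L
  have hCpos : 0 < CC L := by rw [hC]; positivity
  -- a pair of copies without changes at the fixed entries
  obtain ⟨s, hs⟩ : ∃ s : Fin (RR L) × Fin (CC L), ∀ q : Fin (nn L) × Fin (nn L),
      Act L q.1 q.2 → ch q s = 0 := by
    by_contra hno
    push Not at hno
    have h1 : RR L * CC L ≤ ∑ q, (if Act L q.1 q.2 then ∑ s, ch q s else 0) := by
      have h2 : ∀ s ∈ (univ : Finset (Fin (RR L) × Fin (CC L))),
          1 ≤ ∑ q : Fin (nn L) × Fin (nn L), (if Act L q.1 q.2 then ch q s else 0) := by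
        intro s _
        obtain ⟨q, hq1, hq2⟩ := hno s
        have h3 : (if Act L q.1 q.2 then ch q s else 0) ≤
            ∑ q : Fin (nn L) × Fin (nn L), (if Act L q.1 q.2 then ch q s else 0) :=
          Finset.single_le_sum (f := fun q : Fin (nn L) × Fin (nn L) =>
            (if Act L q.1 q.2 then ch q s else 0)) (fun _ _ => Nat.zero_le _) (Finset.mem_univ q)
        rw [if_pos hq1] at h3
        omega
      have h4 := Finset.sum_le_sum h2
      rw [Finset.sum_comm] at h4
      have h5 : ∑ _s : Fin (RR L) × Fin (CC L), 1 = RR L * CC L := by simp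
      rw [h5] at h4
      refine h4.trans (le_of_eq ?_)
      refine Finset.sum_congr rfl fun q _ => ?_
      by_cases h : Act L q.1 q.2 <;> simp [h]
    have h6 : fc L * (RR L * CC L) ≤ ∑ q, (if Act L q.1 q.2 then 0 else ∑ s, ch q s) +
        fc L * (5 * CC L + 6 * RR L ^ 7) := by
      rw [fc_eq, Finset.sum_mul, Finset.sum_mul, ← Finset.sum_add_distrib]
      refine Finset.sum_le_sum fun q _ => ?_
      by_cases h : Act L q.1 q.2
      · simp [h]
      · simp only [if_neg h, one_mul]
        exact hfree q h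
    have h7 : ∑ q, ∑ s, ch q s = ∑ q : Fin (nn L) × Fin (nn L),
        (if Act L q.1 q.2 then ∑ s, ch q s else 0) +
        ∑ q : Fin (nn L) × Fin (nn L), (if Act L q.1 q.2 then 0 else ∑ s, ch q s) := by
      rw [← Finset.sum_add_distrib]
      refine Finset.sum_congr rfl fun q _ => ?_
      by_cases h : Act L q.1 q.2 <;> simp [h]
    have h8 : fc L * (5 * CC L + 6 * RR L ^ 7) < RR L * CC L := by
      rw [← hC]
      have h9 := fc_le L
      calc fc L * (5 * CC L + 6 * CC L) = 11 * fc L * CC L := by ring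
        _ ≤ 11 * rr L * CC L := by
          apply Nat.mul_le_mul_right
          omega
        _ < RR L * CC L := by
          apply Nat.mul_lt_mul_of_pos_right _ hCpos
          omega
    omega
  have hent : ∀ q : Fin (nn L) × Fin (nn L), Act L q.1 q.2 →
      B (br q.1 s.1) (bc q.2 s.2) = if (q.1 : ℕ) = q.2 then 1 else 0 := by
    intro q hq
    have h1 := hs q hq
    simp only [ch] at h1
    have h2 : ((en L (br q.1 s.1) (bc q.2 s.2) : ℚ) : ℝ) = B (br q.1 s.1) (bc q.2 s.2) := by
      by_contra h3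
      rw [if_pos h3] at h1
      omega
    rw [← h2]
    have h4 := en_block L q s
    rw [if_pos hq] at h4
    rw [h4]
    split_ifs <;> simp
  -- extraction
  let α : ℕ → ℕ → ℝ := fun i l => if h : i < nn L ∧ l < k then P (br ⟨i, h.1⟩ s.1) ⟨l, h.2⟩ else 0
  let β : ℕ → ℕ → ℝ := fun j l => if h : j < nn L ∧ l < k then Q (bc ⟨j, h.1⟩ s.2) ⟨l, h.2⟩ else 0
  have hG : ∀ (i : ℕ) (hi : i < nn L) (j : ℕ) (hj : j < nn L),
      ∑ l ∈ range 5, α i l * β j l = B (br ⟨i, hi⟩ s.1) (bc ⟨j, hj⟩ s.2) := by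
    intro i hi j hj
    rw [hPQ]
    have h1 : ∑ l ∈ range 5, α i l * β j l = ∑ l ∈ range k, α i l * β j l := by
      symm
      apply Finset.sum_subset
      · intro l hl
        rw [Finset.mem_range] at hl ⊢
        omega
      · intro l _ hl
        rw [Finset.mem_range] at hl
        have : α i l = 0 := dif_neg (fun h => hl h.2)
        rw [this, zero_mul]
    rw [h1, ← Fin.sum_univ_eq_sum_range (fun l => α i l * β j l)]
    refine Finset.sum_congr rfl fun l _ => ?_
    have e1 : α i l = P (br ⟨i, hi⟩ s.1) l := dif_pos ⟨hi, l.2⟩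
    have e2 : β j l = Q (bc ⟨j, hj⟩ s.2) l := dif_pos ⟨hj, l.2⟩
    rw [e1, e2]
  refine is_of_five L α β (fun i j => ∑ l ∈ range 5, α i l * β j l) (fun _ _ _ _ => rfl) ?_ ?_
  · intro i hi
    rw [hG i hi i hi, hent (⟨i, hi⟩, ⟨i, hi⟩) (Or.inl rfl), if_pos rfl]
    exact one_ne_zero
  · intro i hi j hj hij ha
    rw [hG i hi j hj, hent (⟨i, hi⟩, ⟨j, hj⟩) ha, if_neg hij]

/-- Completeness. -/
theorem compl {S : List ER.Con} (h : ER.Sat S) :
    ∃ B : Matrix (Fin (nn (descs S) * RR (descs S))) (Fin (nn (descs S) * CC (descs S))) ℝ,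
      B.rank ≤ 5 ∧ ∑ p : Fin (nn (descs S) * RR (descs S)) × Fin (nn (descs S) * CC (descs S)),
      (if ((en (descs S) p.1 p.2 : ℚ) : ℝ) ≠ B p.1 p.2 then 1 else 0) ≤
        fc (descs S) * (RR (descs S) * CC (descs S)) := by
  obtain ⟨x, hx⟩ := h
  obtain ⟨L, hL⟩ : ∃ L, L = descs S := ⟨_, rfl⟩
  have hvalid : ∀ d ∈ L, Valid x d := by rw [hL]; exact valid_descs hx
  rw [← hL]
  have hV : ∀ i < L.length, Valid x (dget L i) := by
    intro i hi
    apply hvalid
    rw [dget, List.getD_eq_getElem _ _ hi]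
    exact List.getElem_mem hi
  let A₅ : Matrix (Fin (nn L * RR L)) (Fin 5) ℝ := Matrix.of fun ρ k => av x L (ρ / RR L) k
  let B₅ : Matrix (Fin 5) (Fin (nn L * CC L)) ℝ := Matrix.of fun k γ => bv x L (γ / CC L) k
  have hent : ∀ ρ γ, (A₅ * B₅) ρ γ = dt x L (ρ / RR L) (γ / CC L) := by
    intro ρ γ
    rw [Matrix.mul_apply]
    exact Fin.sum_univ_eq_sum_range
      (fun k => av x L (ρ / RR L) k * bv x L (γ / CC L) k) 5
  refine ⟨A₅ * B₅, (Matrix.rank_mul_le_left _ _).trans (Matrix.rank_le_width _), ?_⟩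
  refine le_trans (le_of_eq (sum_blocks
    (fun ρ γ => if ((en L ρ γ : ℚ) : ℝ) ≠ (A₅ * B₅) ρ γ then 1 else 0))) ?_
  rw [fc_eq, Finset.sum_mul]
  refine Finset.sum_le_sum fun q _ => ?_
  by_cases h : Act L q.1 q.2
  · rw [if_pos h, zero_mul]
    refine le_of_eq (Finset.sum_eq_zero fun s _ => if_neg ?_)
    rw [not_not, en_block L q s, if_pos h, hent, idx_div, idx_div]
    by_cases hq : (q.1 : ℕ) = q.2
    · rw [if_pos hq, ← hq, dt_self hV q.1.2]
      simp
    · rw [if_neg hq, dt_zero hV q.1.2 q.2.2 hq h]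
      simp
  · rw [if_neg h, one_mul]
    refine (Finset.sum_le_card_nsmul _ _ 1 fun s _ => by split_ifs <;> omega).trans ?_
    rw [Finset.card_univ, Fintype.card_prod, Fintype.card_fin, Fintype.card_fin, smul_eq_mul,
      mul_one]

theorem table_getD (L : List D) {i j : ℕ} (hi : i < nn L * RR L) (hj : j < nn L * CC L) :
    (((table L).getD i []).getD j 0 : ℚ) = en L i j := by
  simp [table, List.getD, hi, hj]

theorem isTable_table (L : List D) : IsTable (nn L * RR L) (nn L * CC L) (table L) := by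
  refine ⟨by simp [table], fun r h => ?_⟩
  unfold table at h
  rw [List.mem_map] at h
  obtain ⟨i, _, rfl⟩ := h
  simp

theorem diffCount_table (L : List D)
    (B : Matrix (Fin (nn L * RR L)) (Fin (nn L * CC L)) ℝ) :
    diffCount (table L) B = ∑ p : Fin (nn L * RR L) × Fin (nn L * CC L),
      (if ((en L p.1 p.2 : ℚ) : ℝ) ≠ B p.1 p.2 then 1 else 0) := by
  unfold diffCount
  rw [Finset.card_filter]
  refine Finset.sum_congr rfl fun p _ => ?_
  rw [table_getD L p.1.2 p.2.2]

/-- Correctness of the reduction. -/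
theorem sat_iff (S : List ER.Con) : ER.Sat S ↔ LRA0 (red S) := by
  constructor
  · intro h
    obtain ⟨B, h1, h2⟩ := compl h
    refine ⟨?_, _, _, isTable_table (descs S), B, h1, ?_⟩
    · unfold red
      simp only
      positivity
    · rw [show (red S).1 = table (descs S) from rfl, diffCount_table]
      have h3 := Nat.lt_succ_of_le h2
      unfold red
      simp only
      exact_mod_cast h3
  · rintro ⟨_, m, n, hT, B, h1, h2⟩
    obtain ⟨L, hL⟩ : ∃ L, L = descs S := ⟨_, rfl⟩
    unfold red at hT h1 h2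
    rw [← hL] at hT h1 h2
    simp only at hT h1 h2
    have hn5 := nn_pos L
    have hRpos : 0 < RR L := Nat.succ_pos _
    have hm : nn L * RR L = m := (isTable_table L).1.symm.trans hT.1
    have hn : nn L * CC L = n := by
      have h0 : 0 < (table L).length := by
        rw [(isTable_table L).1]
        positivity
      exact ((isTable_table L).2 _ (List.getElem_mem h0)).symm.trans
        (hT.2 _ (List.getElem_mem h0))
    subst hm hn
    rw [diffCount_table] at h2
    have h3 : ∑ p : Fin (nn L * RR L) × Fin (nn L * CC L),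
      (if ((en L p.1 p.2 : ℚ) : ℝ) ≠ B p.1 p.2 then 1 else 0) <
        fc L * (RR L * CC L) + 1 := by exact_mod_cast h2
    obtain ⟨a, b, h⟩ := core L B h1 (Nat.le_of_lt_succ h3)
    rw [hL] at h
    exact sound h

end Pool.Agent.X246.LRA
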