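import Pool.Agent.X246.LRA.PolyT

/-!
# Entrywise low-rank approximation in the `ℓ⁰` distance: membership in `∃ℝ`
-/

set_option autoImplicit false

namespace Pool.Agent.NPC.X246LRA

open Pool.Agent.NPC Pool.Agent.X246.HDM Pool.Agent.X246.LRA Pool.Agent.NPC.H670R2
open Pool.Agent.NPC.X246HDM (upoly_nrows upoly_ncols)

/-- Inputs. -/
abbrev Inq : Type := List (List ℚ) × ℕ × ℚ

def rws (I : Inq) : ℕ := I.1.length
def cls (I : Inq) : ℕ := (I.1.getD 0 []).length
def kq (I : Inq) : ℕ := if I.2.1 ≤ rws I then I.2.1 else rws I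
def wq (I : Inq) : ℕ := rws I + cls I + 1

theorem kq_le (I : Inq) : kq I ≤ rws I := by unfold kq; split_ifs <;> omega

/-- The entries. -/
def eq' (I : Inq) (i j : ℕ) : ℚ := (I.1.getD i []).getD j 0

def testq (I : Inq) : Bool := I.1.all fun r => decide (r.length = cls I)

theorem testq_iff (I : Inq) : testq I = true ↔ IsTable (rws I) (cls I) I.1 := by
  unfold testq IsTable
  simp only [decide_eq_true_eq, List.all_eq_true, rws, true_and]

/-- Variables. -/
def vq (I : Inq) (t i j : ℕ) : ℕ := 8 * (i * wq I + j) + t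

def dotq (I : Inq) (i j : ℕ) : ER.Tm :=
  ER.sumTm ((List.range (kq I)).map fun c =>
    ER.Tm.mul (ER.Tm.var (vq I 0 i c)) (ER.Tm.var (vq I 1 c j)))

theorem eval_dotq (I : Inq) (i j : ℕ) (x : ℕ → ℝ) :
    (dotq I i j).eval x = ∑ c ∈ Finset.range (kq I), x (vq I 0 i c) * x (vq I 1 c j) := by
  unfold dotq
  rw [ER.eval_sumTm, List.map_map, ← X246CMI.sum_map_range]
  rfl

def atomq (I : Inq) (i j : ℕ) : ER.Fm :=
  ER.Fm.or (ER.Fm.eq (ER.Tm.var (vq I 2 i j)) ER.Tm.one)
    (ER.Fm.and (ER.Fm.eq (ER.Tm.var (vq I 2 i j)) ER.Tm.zero)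
      (ER.eqRat (dotq I i j) (eq' I i j)))

/-- The sum of the indicators of the differing entries. -/
def sumq (I : Inq) : ER.Tm :=
  ER.sumTm ((List.range (rws I)).map fun i =>
    ER.sumTm ((List.range (cls I)).map fun j => ER.Tm.var (vq I 2 i j)))

theorem eval_sumq (I : Inq) (x : ℕ → ℝ) : (sumq I).eval x =
    ∑ i ∈ Finset.range (rws I), ∑ j ∈ Finset.range (cls I), x (vq I 2 i j) := by
  unfold sumq
  rw [ER.eval_sumTm, List.map_map, ← X246CMI.sum_map_range]
  congr 1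
  refine List.map_congr_left fun i _ => ?_
  rw [Function.comp_apply, ER.eval_sumTm, List.map_map, ← X246CMI.sum_map_range]
  rfl

def atomq0 (I : Inq) : ER.Fm :=
  ER.Fm.and (ER.Fm.lt ER.Tm.zero (ER.intTm I.2.2.num))
    (ER.Fm.lt (ER.Tm.mul (ER.natTm I.2.2.den) (sumq I)) (ER.intTm I.2.2.num))

theorem holds_atomq0 (I : Inq) (x : ℕ → ℝ) : (atomq0 I).Holds x ↔
    0 < I.2.2 ∧ ∑ i ∈ Finset.range (rws I), ∑ j ∈ Finset.range (cls I), x (vq I 2 i j) <
      ((I.2.2 : ℚ) : ℝ) := by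
  unfold atomq0
  simp only [ER.Fm.Holds, ER.Tm.eval, ER.eval_natTm, ER.eval_intTm, eval_sumq]
  have h1 : ((I.2.2 : ℚ) : ℝ) = (I.2.2.num : ℝ) / (I.2.2.den : ℝ) := by
    exact_mod_cast (Rat.num_div_den I.2.2).symm
  have h2 : (0 : ℝ) < (I.2.2.den : ℝ) := by exact_mod_cast I.2.2.den_pos
  have h3 : (0 : ℝ) < (I.2.2.num : ℝ) ↔ 0 < I.2.2 := by
    rw [← Rat.num_pos]
    exact_mod_cast Iff.rfl
  rw [h3, h1, lt_div_iff₀ h2, mul_comm]

def atomsq (I : Inq) : List ER.Fm :=
  atomq0 I :: ((List.range (rws I)).flatMap fun i => (List.range (cls I)).map fun j => atomq I i j)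

def formulaq (I : Inq) : ER.Fm := if testq I = true then conj (atomsq I) else ff

/-- All conditions. -/
def Sysq (I : Inq) (X : ℕ → ℕ → ℕ → ℝ) : Prop :=
  (0 < I.2.2 ∧ ∑ i ∈ Finset.range (rws I), ∑ j ∈ Finset.range (cls I), X 2 i j <
      ((I.2.2 : ℚ) : ℝ)) ∧
  ∀ i < rws I, ∀ j < cls I, X 2 i j = 1 ∨ (X 2 i j = 0 ∧
    ∑ c ∈ Finset.range (kq I), X 0 i c * X 1 c j = ((eq' I i j : ℚ) : ℝ))

theorem holds_atomsq (I : Inq) (x : ℕ → ℝ) :
    (conj (atomsq I)).Holds x ↔ Sysq I (fun t i j => x (vq I t i j)) := by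
  rw [holds_conj]
  unfold atomsq Sysq
  rw [List.forall_mem_cons, holds_atomq0]
  refine and_congr Iff.rfl ?_
  have h : ∀ i j, (atomq I i j).Holds x ↔ (x (vq I 2 i j) = 1 ∨ (x (vq I 2 i j) = 0 ∧
      ∑ c ∈ Finset.range (kq I), x (vq I 0 i c) * x (vq I 1 c j) =
        ((eq' I i j : ℚ) : ℝ))) := by
    intro i j
    unfold atomq
    simp only [ER.Fm.Holds, ER.holds_eqRat, ER.Tm.eval, eval_dotq]
  constructor
  · intro h0 i hi j hj
    exact (h i j).1 (h0 _ (List.mem_flatMap.2 ⟨i, List.mem_range.2 hi,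
      List.mem_map.2 ⟨j, List.mem_range.2 hj, rfl⟩⟩))
  · intro h0 φ hφ
    rw [List.mem_flatMap] at hφ
    obtain ⟨i, hi, hφ⟩ := hφ
    rw [List.mem_map] at hφ
    obtain ⟨j, hj, rfl⟩ := hφ
    exact (h i j).2 (h0 i (List.mem_range.1 hi) j (List.mem_range.1 hj))

theorem asg_vq (I : Inq) (X : ℕ → ℕ → ℕ → ℝ) {t j : ℕ} (i : ℕ) (ht : t < 8) (hj : j < wq I) :
    X246HDM.asg (wq I) X (vq I t i j) = X t i j := by
  have hw : 0 < wq I := by omega
  have e0 : vq I t i j % 8 = t := by unfold vq; omega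
  have e1 : vq I t i j / 8 = j + i * wq I := by unfold vq; omega
  rw [X246HDM.asg, e0, e1, Nat.add_mul_div_right _ _ hw, Nat.div_eq_of_lt hj, zero_add,
    Nat.add_mul_mod_self_right, Nat.mod_eq_of_lt hj]

theorem Sysq.congr {I : Inq} {X X' : ℕ → ℕ → ℕ → ℝ} (h : Sysq I X)
    (hX : ∀ t < 8, ∀ i, ∀ j < wq I, X' t i j = X t i j) : Sysq I X' := by
  obtain ⟨⟨h1, h2⟩, h3⟩ := h
  have e1 := kq_le I
  have ew : wq I = rws I + cls I + 1 := rfl
  refine ⟨⟨h1, lt_of_eq_of_lt ?_ h2⟩, ?_⟩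
  · refine Finset.sum_congr rfl fun i _ => Finset.sum_congr rfl fun j hj => ?_
    rw [Finset.mem_range] at hj
    exact hX 2 (by norm_num) i j (by omega)
  · intro i hi j hj
    have e2 := h3 i hi j hj
    rw [hX 2 (by norm_num) i j (by omega)]
    have e3 : ∑ c ∈ Finset.range (kq I), X' 0 i c * X' 1 c j =
        ∑ c ∈ Finset.range (kq I), X 0 i c * X 1 c j := by
      refine Finset.sum_congr rfl fun c hc => ?_
      rw [Finset.mem_range] at hc
      rw [hX 0 (by norm_num) i c (by omega), hX 1 (by norm_num) c j (by omega)]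
    rw [e3]
    exact e2

theorem etr_iffq (I : Inq) : ER.ETR (conj (atomsq I)) ↔ ∃ X, Sysq I X := by
  unfold ER.ETR
  simp only [holds_atomsq]
  constructor
  · rintro ⟨x, hx⟩
    exact ⟨_, hx⟩
  · rintro ⟨X, hX⟩
    exact ⟨X246HDM.asg (wq I) X, hX.congr fun t ht i j hj => asg_vq I X i ht hj⟩

theorem cls_eq {I : Inq} {m n : ℕ} (h : IsTable m n I.1) (h0 : 0 < rws I) : cls I = n := by
  apply h.2
  unfold rws at h0
  rw [List.getD_eq_getElem _ _ h0]
  exact List.getElem_mem h0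

theorem lra_iff (I : Inq) : LRA0 I ↔ 0 < I.2.2 ∧ IsTable (rws I) (cls I) I.1 ∧
    ∃ B : Matrix (Fin (rws I)) (Fin (cls I)) ℝ, B.rank ≤ I.2.1 ∧
      (diffCount I.1 B : ℚ) < I.2.2 := by
  constructor
  · rintro ⟨h0, m, n, hT, B, h1, h2⟩
    have hm : rws I = m := hT.1
    by_cases hr : 0 < rws I
    · have hn := cls_eq hT hr
      subst hm hn
      exact ⟨h0, hT, B, h1, h2⟩
    · have hm0 : rws I = 0 := by omega
      have hI : I.1 = [] := List.length_eq_zero_iff.1 hm0
      haveI : IsEmpty (Fin (rws I)) := ⟨fun i => absurd i.2 (by omega)⟩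
      refine ⟨h0, ⟨rfl, ?_⟩, 0, ?_, ?_⟩
      · intro r hr
        rw [hI] at hr
        exact absurd hr List.not_mem_nil
      · rw [Matrix.rank_zero]
        omega
      · have h3 : diffCount I.1 (0 : Matrix (Fin (rws I)) (Fin (cls I)) ℝ) = 0 := by
          unfold diffCount
          rw [Finset.card_eq_zero, Finset.filter_eq_empty_iff]
          intro p
          exact isEmptyElim p.1
        rw [h3]
        exact_mod_cast h0
  · rintro ⟨h0, hT, B, h⟩
    exact ⟨h0, _, _, hT, B, h⟩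

theorem rank_le_iff {m n k : ℕ} (W : Matrix (Fin m) (Fin n) ℝ) : W.rank ≤ k ↔
    ∃ A B : ℕ → ℕ → ℝ, ∀ (i : Fin m) (j : Fin n),
      W i j = ∑ c ∈ Finset.range k, A i c * B c j := by
  constructor
  · intro h
    obtain ⟨r, hr⟩ : ∃ r, W.rank = r := ⟨_, rfl⟩
    obtain ⟨a, b, hab⟩ := rank_factor W hr
    let A : Matrix (Fin m) (Fin r) ℝ := Matrix.of a
    let B : Matrix (Fin r) (Fin n) ℝ := Matrix.of fun c j => b j c
    refine ⟨extz A, extz B, fun i j => ?_⟩
    have h1 := sum_extz A B i j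
    have h2 : W i j = (A * B) i j := by
      rw [hab, Matrix.mul_apply]
      rfl
    rw [h2, ← h1]
    apply Finset.sum_subset
    · intro c hc
      rw [Finset.mem_range] at hc ⊢
      omega
    · intro c _ hc
      rw [Finset.mem_range] at hc
      have : extz A i c = 0 := dif_neg (fun h => hc h.2)
      rw [this, zero_mul]
  · rintro ⟨A, B, h⟩
    have h1 : W = (Matrix.of fun (i : Fin m) (c : Fin k) => A i c) *
        (Matrix.of fun (c : Fin k) (j : Fin n) => B c j) := by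
      ext i j
      rw [h, Matrix.mul_apply, ← Fin.sum_univ_eq_sum_range (fun c => A i c * B c j)]
      rfl
    rw [h1]
    exact (Matrix.rank_mul_le_left _ _).trans (Matrix.rank_le_width _)

theorem diffCount_eq {m n : ℕ} (I : Inq) (B : Matrix (Fin m) (Fin n) ℝ) :
    ((diffCount I.1 B : ℕ) : ℝ) = ∑ i ∈ Finset.range m, ∑ j ∈ Finset.range n,
      if ((eq' I i j : ℚ) : ℝ) ≠ extz B i j then 1 else 0 := by
  unfold diffCount
  rw [Finset.card_filter, Fintype.sum_prod_type, ← Fin.sum_univ_eq_sum_range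
    (fun i => ∑ j ∈ Finset.range n, if ((eq' I i j : ℚ) : ℝ) ≠ extz B i j then (1 : ℝ) else 0)]
  push_cast
  refine Finset.sum_congr rfl fun i _ => ?_
  rw [← Fin.sum_univ_eq_sum_range
    (fun j => if ((eq' I i j : ℚ) : ℝ) ≠ extz B i j then (1 : ℝ) else 0)]
  refine Finset.sum_congr rfl fun j _ => ?_
  rw [extz_fin]
  rfl

theorem formulaq_iff (I : Inq) : LRA0 I ↔ ER.ETR (formulaq I) := by
  rw [lra_iff, ← testq_iff]
  unfold formulaq
  by_cases ht : testq I = true
  · rw [if_pos ht, etr_iffq, and_iff_right ht]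
    have hrk : ∀ B : Matrix (Fin (rws I)) (Fin (cls I)) ℝ, B.rank ≤ I.2.1 ↔ B.rank ≤ kq I := by
      intro B
      have := Matrix.rank_le_height B
      unfold kq
      split_ifs <;> omega
    simp only [hrk, rank_le_iff]
    constructor
    · rintro ⟨h0, B, ⟨P, Q, hB⟩, h1⟩
      refine ⟨fun t => if t = 0 then P else if t = 1 then Q else fun i j =>
        if ((eq' I i j : ℚ) : ℝ) ≠ extz B i j then 1 else 0, ⟨h0, ?_⟩, ?_⟩
      · have h2 : ((diffCount I.1 B : ℕ) : ℝ) < ((I.2.2 : ℚ) : ℝ) := by exact_mod_cast h1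
        rw [diffCount_eq] at h2
        exact h2
      · intro i hi j hj
        by_cases h : ((eq' I i j : ℚ) : ℝ) ≠ extz B i j
        · left
          exact if_pos h
        · right
          refine ⟨if_neg h, ?_⟩
          rw [not_not] at h
          rw [h]
          have h3 := hB ⟨i, hi⟩ ⟨j, hj⟩
          have h4 := extz_fin B ⟨i, hi⟩ ⟨j, hj⟩
          simp only at h3 h4
          rw [h4, h3]
          rfl
    · rintro ⟨X, ⟨h0, h1⟩, h2⟩
      refine ⟨h0, Matrix.of fun i j => ∑ c ∈ Finset.range (kq I), X 0 i c * X 1 c j,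
        ⟨X 0, X 1, fun i j => rfl⟩, ?_⟩
      have h3 : ((diffCount I.1 (Matrix.of fun (i : Fin (rws I)) (j : Fin (cls I)) =>
          ∑ c ∈ Finset.range (kq I), X 0 i c * X 1 c j) : ℕ) : ℝ) < ((I.2.2 : ℚ) : ℝ) := by
        rw [diffCount_eq]
        refine lt_of_le_of_lt ?_ h1
        refine Finset.sum_le_sum fun i hi => Finset.sum_le_sum fun j hj => ?_
        rw [Finset.mem_range] at hi hj
        have h4 := extz_fin (Matrix.of fun (i : Fin (rws I)) (j : Fin (cls I)) =>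
          ∑ c ∈ Finset.range (kq I), X 0 i c * X 1 c j) ⟨i, hi⟩ ⟨j, hj⟩
        simp only [Matrix.of_apply] at h4
        rw [h4]
        rcases h2 i hi j hj with h5 | ⟨h5, h6⟩
        · rw [h5]
          split_ifs <;> norm_num
        · rw [h5, h6, if_neg (by simp)]
      exact_mod_cast h3
  · rw [if_neg ht]
    constructor
    · rintro ⟨_, h, _⟩
      exact absurd h ht
    · intro h
      exact absurd h not_etr_ff

section Poly

variable {α : Type} [TEnc α]

theorem upoly_rws : UPoly rws := UPoly.length (Poly.fst Poly.id)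

theorem upoly_cls : UPoly cls :=
  UPoly.length (Poly.getD (Poly.fst Poly.id) (Poly.const 0) (Poly.const []))

theorem upoly_kq : UPoly kq :=
  UPoly.of_le (Poly.ite (Poly.decide_le (Poly.fst (Poly.snd Poly.id)) upoly_rws.toPoly)
    (Poly.fst (Poly.snd Poly.id)) upoly_rws.toPoly) upoly_rws kq_le

theorem poly_wq : Poly wq :=
  (UPoly.add (UPoly.add upoly_rws upoly_cls) (UPoly.const 1)).toPoly

theorem poly_testq : Poly testq := by
  refine Poly.all (p := fun (I : Inq) (r : List ℚ) => decide (r.length = cls I))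
    (Poly.fst Poly.id) ?_
  exact Poly.decide_eq (Poly.length (Poly.snd Poly.id))
    (upoly_cls.toPoly.comp (Poly.fst Poly.id))

theorem poly_vq {I : α → Inq} {i j : α → ℕ} (t : ℕ) (hI : Poly I) (hi : Poly i) (hj : Poly j) :
    Poly (fun a => vq (I a) t (i a) (j a)) :=
  Poly.add (Poly.mul (Poly.const 8) (Poly.add (Poly.mul hi (poly_wq.comp hI)) hj))
    (Poly.const t)

theorem poly_dotq {I : α → Inq} {i j : α → ℕ} (hI : Poly I) (hi : Poly i)
    (hj : Poly j) : Poly (fun a => dotq (I a) (i a) (j a)) := by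
  refine ER.poly_sumTm ?_
  have hf := Poly.fst (Poly.id (α := α × ℕ))
  have hc := Poly.snd (Poly.id (α := α × ℕ))
  exact Poly.map (F := fun a c => ER.Tm.mul (ER.Tm.var (vq (I a) 0 (i a) c))
      (ER.Tm.var (vq (I a) 1 c (j a)))) (upoly_kq.comp hI).range
    (poly_tmul (poly_tvar (poly_vq 0 (hI.comp hf) (hi.comp hf) hc))
      (poly_tvar (poly_vq 1 (hI.comp hf) hc (hj.comp hf))))

theorem poly_atomq {I : α → Inq} {i j : α → ℕ} (hI : Poly I) (hi : Poly i)
    (hj : Poly j) : Poly (fun a => atomq (I a) (i a) (j a)) :=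
  poly_or (poly_eq (poly_tvar (poly_vq 2 hI hi hj)) (Poly.const _))
    (poly_and (poly_eq (poly_tvar (poly_vq 2 hI hi hj)) (Poly.const _))
      (ER.poly_eqRat (poly_dotq hI hi hj)
        (Poly.getD (Poly.getD (Poly.fst hI) hi (Poly.const [])) hj (Poly.const 0))))

theorem poly_sumq : Poly sumq := by
  refine ER.poly_sumTm ?_
  refine Poly.map (F := fun (I : Inq) i =>
    ER.sumTm ((List.range (cls I)).map fun j => ER.Tm.var (vq I 2 i j))) upoly_rws.range ?_
  refine ER.poly_sumTm ?_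
  refine Poly.map (F := fun (p : Inq × ℕ) j => ER.Tm.var (vq p.1 2 p.2 j))
    (upoly_cls.comp (Poly.fst Poly.id)).range ?_
  exact poly_tvar (poly_vq 2 (Poly.fst (Poly.fst Poly.id)) (Poly.snd (Poly.fst Poly.id))
    (Poly.snd Poly.id))

theorem poly_atomq0 : Poly atomq0 := by
  have h := Poly.snd (Poly.snd (Poly.id (α := Inq)))
  exact poly_and (poly_lt (Poly.const _) (ER.poly_intTm (ER.poly_ratNum h)))
    (poly_lt (poly_tmul (ER.poly_natTm (ER.poly_ratDen h)) poly_sumq)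
      (ER.poly_intTm (ER.poly_ratNum h)))

theorem poly_atomsq : Poly atomsq := by
  refine Poly.cons poly_atomq0 ?_
  refine Poly.flatMap (F := fun (I : Inq) i =>
    (List.range (cls I)).map fun j => atomq I i j) upoly_rws.range ?_
  refine Poly.map (F := fun (p : Inq × ℕ) j => atomq p.1 p.2 j)
    (upoly_cls.comp (Poly.fst Poly.id)).range ?_
  exact poly_atomq (Poly.fst (Poly.fst Poly.id)) (Poly.snd (Poly.fst Poly.id))
    (Poly.snd Poly.id)

theorem poly_formulaq : Poly formulaq :=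
  Poly.ite (Poly.decide_bool poly_testq) (poly_conj poly_atomsq) (Poly.const ff)

end Poly

/-- `LRA₀` lies in `∃ℝ`. -/
theorem mem : ER.InER (lang LRA0) := ER.InER.of_poly poly_formulaq formulaq_iff

end Pool.Agent.NPC.X246LRA
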