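import Pool.Agent.X246.HDM.Mem
import Pool.Agent.X246.LRA.Main

/-!
# Entrywise low-rank approximation in the `ℓ⁰` distance: polynomial time
-/

set_option autoImplicit false

namespace Pool.Agent.NPC.X246LRA

open Pool.Agent.NPC Pool.Agent.X246.CMI Pool.Agent.X246.HDM Pool.Agent.X246.LRA
open Pool.Agent.NPC.H670R2 Pool.Agent.NPC.X246CMI Pool.Agent.NPC.X246HDM

section Red

variable {α : Type} [TEnc α]

theorem poly_natZ {t : α → ℕ} (ht : Poly t) : Poly (fun a => ((t a : ℕ) : ℤ)) := by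
  have h : Poly (fun a => ((decide (((t a : ℕ) : ℤ) < 0), ((t a : ℕ) : ℤ).natAbs) :
      Bool × ℕ)) := by
    refine (Poly.pair (Poly.const false) ht).congr fun a => ?_
    simp
  exact h

theorem poly_natQ {t : α → ℕ} (ht : Poly t) : Poly (fun a => ((t a : ℕ) : ℚ)) := by
  have h : Poly (fun a => ((((t a : ℕ) : ℚ).num, ((t a : ℕ) : ℚ).den) : ℤ × ℕ)) := by
    refine (Poly.pair (poly_natZ ht) (Poly.const 1)).congr fun a => ?_
    simp
  exact h

theorem poly_invQ {t : α → ℕ} (ht : Poly t) : Poly (fun a => 1 / (((t a : ℕ) : ℚ) + 1)) := by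
  have h : Poly (fun a => (((1 / (((t a : ℕ) : ℚ) + 1)).num,
      (1 / (((t a : ℕ) : ℚ) + 1)).den) : ℤ × ℕ)) := by
    refine (Poly.pair (Poly.const (1 : ℤ)) (Poly.succ ht)).congr fun a => ?_
    have h1 : 1 / (((t a : ℕ) : ℚ) + 1) = ((t a + 1 : ℕ) : ℚ)⁻¹ := by
      push_cast
      rw [one_div]
    rw [h1, Rat.inv_natCast_num_of_pos (Nat.succ_pos _), Rat.inv_natCast_den_of_pos (Nat.succ_pos _)]
  exact h

theorem upoly_RR : UPoly RR := UPoly.add (UPoly.mul (UPoly.const 11) upoly_rr) (UPoly.const 1)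

theorem upoly_CC : UPoly CC :=
  UPoly.mul (UPoly.mul (UPoly.mul (UPoly.mul (UPoly.mul (UPoly.mul upoly_RR upoly_RR) upoly_RR)
    upoly_RR) upoly_RR) upoly_RR) upoly_RR

theorem poly_en {l : α → List D} {r c : α → ℕ} (hl : Poly l) (hr : Poly r) (hc : Poly c) :
    Poly (fun a => en (l a) (r a) (c a)) := by
  have hR := upoly_RR.toPoly.comp hl
  have hC := upoly_CC.toPoly.comp hl
  have d1 := Poly.div hr hR
  have d2 := Poly.div hc hC
  exact Poly.ite (poly_act hl d1 d2)
    (Poly.ite (Poly.decide_eq d1 d2) (Poly.const 1) (Poly.const 0))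
    (poly_invQ (Poly.add (Poly.mod hr hR) (Poly.mod hc hC)))

theorem poly_tableL : Poly Pool.Agent.X246.LRA.table := by
  refine Poly.map (F := fun (L : List D) ρ =>
    (List.range (nn L * CC L)).map fun γ => en L ρ γ) (UPoly.mul upoly_nn upoly_RR).range ?_
  refine Poly.map (F := fun (p : List D × ℕ) γ => en p.1 p.2 γ)
    ((UPoly.mul upoly_nn upoly_CC).comp (Poly.fst Poly.id)).range ?_
  exact poly_en (Poly.fst (Poly.fst Poly.id)) (Poly.snd (Poly.fst Poly.id)) (Poly.snd Poly.id)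

theorem poly_fc : Poly fc := by
  refine Poly.length ?_
  refine Poly.flatMap (F := fun (L : List D) i =>
    (List.range (nn L)).filter fun j => !decide (Act L i j)) upoly_nn.range ?_
  refine Poly.filter (p := fun (p : List D × ℕ) j => !decide (Act p.1 p.2 j))
    (upoly_nn.comp (Poly.fst Poly.id)).range ?_
  exact Poly.not (poly_act (Poly.fst (Poly.fst Poly.id)) (Poly.snd (Poly.fst Poly.id))
    (Poly.snd Poly.id))

theorem poly_eps : Poly (fun L : List D => ((fc L * (RR L * CC L) + 1 : ℕ) : ℚ)) :=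
  poly_natQ (Poly.succ (Poly.mul poly_fc (Poly.mul upoly_RR.toPoly upoly_CC.toPoly)))

theorem poly_redL : Poly Pool.Agent.X246.LRA.red :=
  Poly.pair (poly_tableL.comp poly_descs)
    (Poly.pair (Poly.const 5) (poly_eps.comp poly_descs))

theorem poly_redL5 : Poly (fun S : List ER.Con =>
    ((Pool.Agent.X246.LRA.red S).1, (Pool.Agent.X246.LRA.red S).2.2)) :=
  Poly.pair (Poly.fst poly_redL) (Poly.snd (Poly.snd poly_redL))

end Red

/-- `LRA₀` is `∃ℝ`-hard. -/
theorem hard : ER.ERHard (lang LRA0) :=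
  ER.ERHard.of_sys poly_redL Pool.Agent.X246.LRA.sat_iff

/-- `LRA₀` is `∃ℝ`-hard for the fixed rank bound `5`. -/
theorem hard5 : ER.ERHard (lang (fun I : List (List ℚ) × ℚ => LRA0 (I.1, 5, I.2))) :=
  ER.ERHard.of_sys poly_redL5 Pool.Agent.X246.LRA.sat_iff

end Pool.Agent.NPC.X246LRA
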